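import Pool.Agent.BEQ.Stmts
import Pool.Agent.Helper82_BE01.WVC
import Pool.Agent.Helper53_BEL.Fin

/-!
# Squad BEQ (MP_be01ff_an), row TEX: the operator exists
-/

set_option autoImplicit false

namespace Pool.Agent.BEQ.H65

open Set Filter Topology MeasureTheory
open scoped InnerProductSpace ENNReal
open Pool.Agent Pool.Agent.BE01 Pool.Agent.BEL Pool.Agent.BEH Pool.Agent.BEG

noncomputable section

theorem tex_mu_restrict {d : ℕ} {D Ω : Set (En d)} (hm : MeasurableSet Ω) (hs : Ω ⊆ D) :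
    (mu D).restrict Ω = mu Ω := by
  unfold mu
  rw [Measure.restrict_restrict hm, inter_eq_left.mpr hs]

theorem tex_hb_ext {H : Type} [NormedAddCommGroup H] [InnerProductSpace ℝ H]
    (b : HilbertBasis ℕ ℝ H) {x y : H} (h : ∀ k, ⟪b k, x⟫_ℝ = ⟪b k, y⟫_ℝ) : x = y := by
  apply b.repr.injective
  apply lp.ext
  funext k
  rw [b.repr_apply_apply, b.repr_apply_apply]
  exact h k

theorem tex (ext : Pool.Agent.BEH.ExtStmt) : TexStmt := by
  intro d D Ω ι b e om hd hD hs hok
  have hΩ : Dom Ω := hok.dom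
  have hm : MeasurableSet Ω := hΩ.1.measurableSet
  obtain ⟨ιD, hιD, _⟩ := Pool.Agent.BEL.H53.empA d D hd hD
  obtain ⟨E, F, hE, _, _⟩ := ext d D Ω ιD ι hD hΩ hs hιD hok.emb
  have hcomp : CompleteSpace (VV Ω) := by
    unfold VV
    exact Submodule.topologicalClosure.completeSpace _
  have hA : ∀ (h : Lp ℝ 2 (mu Ω)) (G : VV Ω), ⟪ContinuousLinearMap.adjoint ι h, G⟫_ℝ = ⟪h, ι G⟫_ℝ :=
    fun h G => ContinuousLinearMap.adjoint_inner_left ι G h
  obtain ⟨A, hA⟩ : ∃ A : Lp ℝ 2 (mu Ω) →L[ℝ] VV Ω, ∀ (h : Lp ℝ 2 (mu Ω)) (G : VV Ω),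
      ⟪A h, G⟫_ℝ = ⟪h, ι G⟫_ℝ := ⟨ContinuousLinearMap.adjoint ι, hA⟩
  obtain ⟨R, hR⟩ : ∃ R : Lp ℝ 2 (mu D) →L[ℝ] Lp ℝ 2 (mu Ω), ∀ (h : Lp ℝ 2 (mu D))
      (u : Lp ℝ 2 (mu Ω)), ⟪R h, u⟫_ℝ = ⟪h, E u⟫_ℝ :=
    ⟨ContinuousLinearMap.adjoint E.toContinuousLinearMap, fun h u =>
      ContinuousLinearMap.adjoint_inner_left E.toContinuousLinearMap u h⟩
  -- `R` is the restriction
  have hRae : ∀ h : Lp ℝ 2 (mu D), R h =ᵐ[mu Ω] h := by
    intro h
    have hmem : MemLp (h : En d → ℝ) 2 (mu Ω) := by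
      rw [← tex_mu_restrict hm hs]
      exact (Lp.memLp h).restrict Ω
    have hrt : R h = hmem.toLp _ := by
      refine ext_inner_right ℝ fun u => ?_
      rw [hR, L2.inner_def, L2.inner_def]
      have h1 : ∫ x, ⟪h x, E u x⟫_ℝ ∂(mu D) = ∫ x, Ω.indicator (fun x => ⟪h x, u x⟫_ℝ) x ∂(mu D) := by
        apply integral_congr_ae
        filter_upwards [hE u] with x hx
        rw [hx]
        by_cases hxm : x ∈ Ω
        · rw [indicator_of_mem hxm, indicator_of_mem hxm]
        · rw [indicator_of_notMem hxm, indicator_of_notMem hxm, inner_zero_right]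
      rw [h1, integral_indicator hm, tex_mu_restrict hm hs]
      apply integral_congr_ae
      filter_upwards [hmem.coeFn_toLp] with x hx
      rw [hx]
    rw [hrt]
    exact hmem.coeFn_toLp
  have hRE : ∀ u, R (E u) = u := by
    intro u
    refine ext_inner_right ℝ fun w => ?_
    rw [hR, E.inner_map_map]
  -- the eigenvectors
  have hAb : ∀ k, A (b k) = (om k)⁻¹ • e k := by
    intro k
    refine ext_inner_right ℝ fun G => ?_
    rw [hA, hok.spec.rel]
    exact (real_inner_smul_left (e k) G _).symm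
  have hιe : ∀ k, ι (e k) = (om k)⁻¹ • b k := by
    intro k
    refine tex_hb_ext b fun j => ?_
    rw [hok.spec.rel, real_inner_smul_right, orthonormal_iff_ite.1 e.orthonormal j k,
      orthonormal_iff_ite.1 b.orthonormal j k]
    by_cases hjk : j = k
    · rw [hjk]
    · rw [if_neg hjk, mul_zero, mul_zero]
  have hTv : ∀ h : Lp ℝ 2 (mu D), ((E.toContinuousLinearMap.comp ι).comp (A.comp R)) h =
      E (ι (A (R h))) := fun h => rfl
  refine ⟨(E.toContinuousLinearMap.comp ι).comp (A.comp R), fun k => E (b k), ?_, ?_⟩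
  · intro h
    refine ⟨R h, ι (A (R h)), (A (R h) : Lp (En d) 2 (mu Ω)), hRae h, ?_, ?_, ?_⟩
    · exact (hok.grf _ _).2 ⟨(A (R h)).2, rfl⟩
    · intro ψ hψ
      obtain ⟨G, hG⟩ := Pool.Agent.Helper82_BE01.exists_grad hψ
      have h1 : ⟪(A (R h) : Lp (En d) 2 (mu Ω)), (G : Lp (En d) 2 (mu Ω))⟫_ℝ =
          ∫ x, ⟪(A (R h) : Lp (En d) 2 (mu Ω)) x, gradient ψ x⟫_ℝ ∂(mu Ω) := by
        rw [L2.inner_def]
        apply integral_congr_ae
        filter_upwards [hG] with x hx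
        rw [hx]
      have h2 : ⟪R h, ι G⟫_ℝ = ∫ x, R h x * ψ x ∂(mu Ω) := by
        rw [L2.inner_def]
        apply integral_congr_ae
        filter_upwards [hok.emb ψ hψ G hG] with x hx
        rw [hx]
        simp [mul_comm]
      rw [← h1, ← h2, ← hA]
      rfl
    · rw [hTv]
      exact hE _
  · refine ⟨?_, ?_, ?_, ?_, ?_⟩
    · exact b.orthonormal.comp_linearIsometry E
    · intro k
      rw [hTv, hRE, hAb, map_smul, hιe, smul_smul, map_smul, ← mul_inv, ← _root_.sq]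
    · intro k
      have := hok.spec.pos k
      positivity
    · intro i j hij
      have h1 := hok.spec.pos i
      have h2 := hok.spec.mono hij
      show (om j ^ 2)⁻¹ ≤ (om i ^ 2)⁻¹
      exact inv_anti₀ (by positivity) (pow_le_pow_left₀ h1.le h2 2)
    · intro h hk
      have h0 : R h = 0 := by
        refine tex_hb_ext b fun k => ?_
        rw [inner_zero_right, real_inner_comm, hR, real_inner_comm]
        exact hk k
      rw [hTv, h0, map_zero, map_zero, map_zero]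

end

end Pool.Agent.BEQ.H65
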